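import Pool.Agent.V7H47.LB.Spec

/-!
# The far points and their order
-/

set_option autoImplicit false

open Real Set

namespace Pool.Agent.V7H19.LB

open Pool.Agent.V7H47.LB Pool.Agent.V7H47.TC

/-- polar coordinates with the angle in a given half open interval of length `2 π` -/
lemma exists_polar (y : Plane) (α : ℝ) :
    ∃ d p : ℝ, 0 ≤ d ∧ α ≤ p ∧ p < α + 2 * π ∧ y = pol d p := by
  set z : ℂ := ⟨y 0, y 1⟩ with hz
  set p : ℝ := toIcoMod Real.two_pi_pos α (Complex.arg z) with hp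
  obtain ⟨h1, h2⟩ := toIcoMod_mem_Ico Real.two_pi_pos α (Complex.arg z)
  have h3 : p = Complex.arg z - (toIcoDiv Real.two_pi_pos α (Complex.arg z) : ℤ) * (2 * π) := by
    rw [hp, toIcoMod, zsmul_eq_mul]
  refine ⟨‖z‖, p, norm_nonneg _, h1, h2, ?_⟩
  have h4 : cos p = cos (Complex.arg z) := by
    rw [h3, Real.cos_sub_int_mul_two_pi]
  have h5 : sin p = sin (Complex.arg z) := by
    rw [h3, Real.sin_sub_int_mul_two_pi]
  unfold pol
  ext i
  fin_cases i
  · simp [h4, Complex.norm_mul_cos_arg, hz]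
  · simp [h5, Complex.norm_mul_sin_arg, hz]

lemma D_pol (t d p : ℝ) : D t (pol d p) = d * cos (p - t) := by
  unfold D pol
  rw [Real.cos_sub]
  simp
  ring

lemma cos_abs_gt {x y : ℝ} (h : |x| < y) (hy : y ≤ π) : cos y < cos x := by
  rw [← Real.cos_abs x]
  exact Real.cos_lt_cos_of_nonneg_of_le_pi (abs_nonneg x) hy h

/-- one far point -/
lemma far_point (K : Set Plane) (r a b e : ℝ) (hr : 0 < r) (hr4 : r < 1 / 4) (hW : Wide K)
    (hG : Gaps a b e) (ha : ∀ x ∈ K, D a x ≤ r) (hb : ∀ x ∈ K, D b x ≤ r)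
    (he : ∀ x ∈ K, D e x ≤ r) :
    ∃ d p γ : ℝ, Far K r d p γ ∧ 1 / 2 - r ≤ d ∧ a + γ ≤ p ∧ p + γ ≤ b := by
  obtain ⟨g1, g2, g3, g4, g5, g6⟩ := hG
  obtain ⟨x, hx, y, hy, hxy⟩ := hW e
  obtain ⟨d, p, hd, hp1, hp2, rfl⟩ := exists_polar y a
  have hye : d * cos (p - e) ≤ r - 1 / 2 := by
    have := he x hx
    rw [← D_pol]
    linarith
  have hya : d * cos (p - a) ≤ r := by
    rw [← D_pol]
    exact ha _ hy
  have hyb : d * cos (p - b) ≤ r := by
    rw [← D_pol]
    exact hb _ hy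
  have hd2 : 1 / 2 - r ≤ d := by
    have h1 := Real.neg_one_le_cos (p - e)
    nlinarith
  have hdr : r < d := by linarith
  have hd0 : 0 < d := by linarith
  have hq0 : 0 < r / d := by positivity
  have hq1 : r / d < 1 := (div_lt_one hd0).2 hdr
  set γ : ℝ := arccos (r / d) with hγ
  have hcos : d * cos γ = r := by
    rw [hγ, Real.cos_arccos (by linarith) hq1.le]
    field_simp
  have hγ0 : 0 < γ := Real.arccos_pos.2 hq1
  have hγ1 : γ < π / 2 := Real.arccos_lt_pi_div_two.2 hq0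
  have hπ := Real.pi_pos
  have key : ∀ x : ℝ, d * cos x ≤ r → ¬ |x| < γ := by
    intro x hx h
    have h1 := cos_abs_gt h (by linarith)
    have h2 := mul_lt_mul_of_pos_left h1 hd0
    linarith
  have h1 : γ ≤ p - a := by
    have := key _ hya
    rw [abs_of_nonneg (by linarith)] at this
    linarith
  have h2 : p - a ≤ 2 * π - γ := by
    have h3 : d * cos (2 * π - (p - a)) ≤ r := by
      rw [Real.cos_two_pi_sub]
      exact hya
    have := key _ h3
    rw [abs_of_nonneg (by linarith)] at this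
    linarith
  refine ⟨d, p, γ, ⟨hγ0, hγ1, hcos, hy⟩, hd2, by linarith, ?_⟩
  by_contra h3
  have h4 : γ ≤ p - b := by
    have := key _ hyb
    rw [abs_lt, not_and_or] at this
    rcases this with h | h <;> linarith
  have h5 : |p - e| < π - γ := by
    rw [abs_lt]
    constructor <;> linarith
  have h6 := cos_abs_gt h5 (by linarith)
  rw [Real.cos_pi_sub] at h6
  have h7 := mul_lt_mul_of_pos_left h6 hd0
  linarith

lemma D_add (t : ℝ) (x : Plane) : D (t + 2 * π) x = D t x := by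
  unfold D
  rw [Real.cos_add_two_pi, Real.sin_add_two_pi]

theorem t_GEO : S_GEO := by
  intro K r a b e hr hr4 _ hW hG ha hb he
  have hG' := hG
  obtain ⟨g1, g2, g3, g4, g5, g6⟩ := hG'
  have ha' : ∀ x ∈ K, D (a + 2 * π) x ≤ r := fun x hx => by rw [D_add]; exact ha x hx
  have hb' : ∀ x ∈ K, D (b + 2 * π) x ≤ r := fun x hx => by rw [D_add]; exact hb x hx
  obtain ⟨d₁, p₁, γ₁, f1, f1', f1'', f1'''⟩ := far_point K r a b e hr hr4 hW hG ha hb he
  obtain ⟨d₂, p₂, γ₂, f2, f2', f2'', f2'''⟩ := far_point K r b e (a + 2 * π) hr hr4 hW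
    ⟨g3, g4, g5, g6, by linarith, by linarith⟩ hb he ha'
  obtain ⟨d₃, p₃, γ₃, f3, f3', f3'', f3'''⟩ := far_point K r e (a + 2 * π) (b + 2 * π) hr hr4 hW
    ⟨g5, g6, by linarith, by linarith, by linarith, by linarith⟩ he ha' hb'
  exact ⟨d₁, d₂, d₃, p₁, p₂, p₃, γ₁, γ₂, γ₃, f1, f2, f3, f1', f2', f3', f1'', f1''', f2'', f2''',
    f3'', f3'''⟩

end Pool.Agent.V7H19.LB
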