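import Pool.Agent.V7H47.LB.Spec

/-!
# The numerical inequality for small inscribed circles
-/

set_option autoImplicit false

open Real Set

namespace Pool.Agent.V7H19.LB

open Pool.Agent.V7H47.LB

/-- the tangent line of the tangent function -/
lemma tan_ge {x y : ℝ} (hx : 0 ≤ x) (hxy : x ≤ y) (hy : y < π / 2) :
    tan x + (y - x) / cos x ^ 2 ≤ tan y := by
  have hcx : 0 < cos x := cos_pos_of_mem_Ioo ⟨by linarith [pi_pos], by linarith⟩
  have hcy : 0 < cos y := cos_pos_of_mem_Ioo ⟨by linarith [pi_pos], by linarith⟩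
  have hsx : 0 ≤ sin x := sin_nonneg_of_nonneg_of_le_pi hx (by linarith [pi_pos])
  obtain ⟨z, hz⟩ : ∃ z, z = y - x := ⟨_, rfl⟩
  have hz0 : 0 ≤ z := by linarith
  have hz1 : z < π / 2 := by linarith
  have hyz : y = x + z := by linarith
  have hsz : 0 ≤ sin z := sin_nonneg_of_nonneg_of_le_pi hz0 (by linarith [pi_pos])
  have hcz : 0 < cos z := cos_pos_of_mem_Ioo ⟨by linarith [pi_pos], by linarith⟩
  have h1 : z * cos z ≤ sin z := by
    rcases hz0.eq_or_lt with h | h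
    · rw [← h]; simp
    · have h2 := Real.lt_tan h hz1
      rw [Real.tan_eq_sin_div_cos, lt_div_iff₀ hcz] at h2
      exact h2.le
  rw [Real.tan_eq_sin_div_cos, Real.tan_eq_sin_div_cos, ← hz]
  have h3 : sin y / cos y - sin x / cos x = sin z / (cos y * cos x) := by
    rw [hz, Real.sin_sub]
    field_simp
  have h4 : z / cos x ^ 2 ≤ sin z / (cos y * cos x) := by
    rw [div_le_div_iff₀ (by positivity) (by positivity)]
    have h5 : z * cos y ≤ sin z * cos x := by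
      rw [hyz, Real.cos_add]
      nlinarith [mul_nonneg (mul_nonneg hz0 hsx) hsz, mul_le_mul_of_nonneg_right h1 hcx.le]
    nlinarith [mul_le_mul_of_nonneg_right h5 hcx.le]
  linarith

/-- the tangent line of `A sin - B cos` -/
lemma conv_ge {A B e x : ℝ} (h1 : 0 ≤ A * cos e + B * sin e)
    (h2 : A * cos e + B * sin e ≤ B * cos e - A * sin e) (hx : x - e ≤ 0.8) (hx2 : -3 ≤ x - e) :
    A * sin e - B * cos e + (A * cos e + B * sin e) * (x - e) ≤ A * sin x - B * cos x := by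
  obtain ⟨y, hy⟩ : ∃ y, y = x - e := ⟨_, rfl⟩
  have hxy : x = e + y := by linarith
  rw [← hy] at hx hx2 ⊢
  have h3 : y - sin y ≤ 1 - cos y := by
    rcases le_or_gt y 0 with h | h
    · have h4 : y ≤ sin y := by
        have := Real.sin_le (x := -y) (by linarith)
        rw [Real.sin_neg] at this
        linarith
      linarith [Real.cos_le_one y]
    · have h4 := Real.sin_gt_sub_cube h
      have h5 : 2 / π * (y / 2) ≤ sin (y / 2) :=
        Real.mul_le_sin (by linarith) (by linarith [Real.pi_gt_three])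
      have h6 : cos y = 1 - 2 * sin (y / 2) ^ 2 := by
        have h7 : y = 2 * (y / 2) := by ring
        rw [h7, Real.cos_two_mul, ← Real.sin_sq_add_cos_sq (2 * (y / 2) / 2)]
        have : 2 * (y / 2) / 2 = y / 2 := by ring
        rw [this]
        ring
      have h8 : 0.31 * y ≤ 2 / π * (y / 2) := by
        have h9 : 2 / π * (y / 2) = y / π := by ring
        rw [h9, le_div_iff₀ pi_pos]
        nlinarith [Real.pi_lt_d2]
      have h10 : 0.31 * y ≤ sin (y / 2) := h8.trans h5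
      have h11 : (0.31 * y) ^ 2 ≤ sin (y / 2) ^ 2 := pow_le_pow_left₀ (by linarith) h10 2
      rw [h6]
      nlinarith [mul_nonneg (mul_nonneg h.le h.le) (show (0:ℝ) ≤ 0.8 - y by linarith)]
  have h3' : (y - sin y) * (A * cos e + B * sin e) ≤ (1 - cos y) * (B * cos e - A * sin e) := by
    have h12 : 0 ≤ 1 - cos y := by linarith [Real.cos_le_one y]
    calc (y - sin y) * (A * cos e + B * sin e) ≤ (1 - cos y) * (A * cos e + B * sin e) :=
          mul_le_mul_of_nonneg_right h3 h1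
      _ ≤ _ := mul_le_mul_of_nonneg_left h2 h12
  rw [hxy, Real.sin_add, Real.cos_add]
  nlinarith

/-- the polynomial inequality in one variable -/
lemma poly_one {r : ℝ} (h1 : 1 / 6 ≤ r) (h2 : r ≤ 0.1936) :
    0 ≤ 3 * r * (1 / 2 - r) * ((1.000025 * (1 / 2 - r) - 0.632 * r) * (40 / 31)) +
      3 * r ^ 2 * (1.7320509 / 2 * r - ((1.000025 * (1 / 2 - r) - 0.632 * r) * (40 / 31)) / 2) -
      1.404 * r * ((1.7320509 / 2 - 0.01125) * (r / 2) +
        (0.75 - 0.005625 * 1.7320509) * ((1.000025 * (1 / 2 - r) - 0.632 * r) * (40 / 31))) +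
      0.351 * (1 / 2 - r) -
      0.468 * r * (1 / 2 - r) * (3 * 1.7320509 / 4 + 0.03375) - 0.1566 * (1 / 2 - r) := by
  obtain ⟨v, hv⟩ : ∃ v, v = 0.1936 - r := ⟨_, rfl⟩
  have hr : r = 0.1936 - v := by linarith
  have hv1 : v ≤ 0.027 := by
    rw [hv]; linarith
  have hv0 : 0 ≤ v := by linarith
  rw [hr]
  have p1 := mul_nonneg (mul_nonneg hv0 hv0) (sub_nonneg.2 hv1)
  have p4 := mul_nonneg hv0 hv0
  norm_num
  ring_nf
  nlinarith [p1, p4]

/-- the polynomial inequality -/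
lemma final_poly {r w c s t : ℝ} (hr1 : 1 / 6 ≤ r) (hr2 : r ≤ 0.1936) (hw : w = 1 / 2 - r)
    (hc : c * w = r) (ht1 : 1.73205 ≤ t) (ht2 : t ≤ 1.7320509)
    (hc1 : 1 / 2 ≤ c) (hc2 : c ≤ 0.632)
    (hs0 : 0 ≤ s) (hs : 0.632 * c + 0.775 * s ≤ 1.000025) :
    0.1566 ≤ 3 * (r * w * s) + 3 * (r ^ 2 * (t / 2 * c - s / 2)) -
      1.404 * r * ((t / 2 - 0.01125) * (c / 2) + (0.75 - 0.005625 * t) * s) + 0.351 -
      0.468 * r * (3 * t / 4 + 0.03375) := by
  have hr0 : 0 < r := by linarith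
  have hw0 : 0.3064 ≤ w := by linarith
  have hs1 : s ≤ 0.9 := by linarith
  -- replace `t` by its upper bound
  have e1 : 0 ≤ (1.7320509 - t) * (r * (0.351 * c + 0.351 - 1.5 * (r * c) - 0.0078975 * s)) := by
    have h1 : r * c ≤ 0.2 * c := mul_le_mul_of_nonneg_right (by linarith) (by linarith)
    refine mul_nonneg (by linarith) (mul_nonneg hr0.le ?_)
    nlinarith
  -- replace `s` by its upper bound
  have e2 : 0 ≤ ((1.000025 - 0.632 * c) * (40 / 31) - s) *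
      (r * (1.053 - 3 * w + 1.5 * r - 0.0078975 * 1.7320509)) := by
    refine mul_nonneg ?_ (mul_nonneg hr0.le ?_)
    · linarith
    · nlinarith
  -- the polynomial
  have e3 : 0 ≤ w * (3 * (r * w * ((1.000025 - 0.632 * c) * (40 / 31))) +
      3 * (r ^ 2 * (1.7320509 / 2 * c - ((1.000025 - 0.632 * c) * (40 / 31)) / 2)) -
      1.404 * r * ((1.7320509 / 2 - 0.01125) * (c / 2) +
        (0.75 - 0.005625 * 1.7320509) * ((1.000025 - 0.632 * c) * (40 / 31))) + 0.351 -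
      0.468 * r * (3 * 1.7320509 / 4 + 0.03375) - 0.1566) := by
    have e4 : w * (3 * (r * w * ((1.000025 - 0.632 * c) * (40 / 31))) +
      3 * (r ^ 2 * (1.7320509 / 2 * c - ((1.000025 - 0.632 * c) * (40 / 31)) / 2)) -
      1.404 * r * ((1.7320509 / 2 - 0.01125) * (c / 2) +
        (0.75 - 0.005625 * 1.7320509) * ((1.000025 - 0.632 * c) * (40 / 31))) + 0.351 -
      0.468 * r * (3 * 1.7320509 / 4 + 0.03375) - 0.1566) =
      3 * r * w * ((1.000025 * w - 0.632 * (c * w)) * (40 / 31)) +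
      3 * r ^ 2 * (1.7320509 / 2 * (c * w) - ((1.000025 * w - 0.632 * (c * w)) * (40 / 31)) / 2) -
      1.404 * r * ((1.7320509 / 2 - 0.01125) * ((c * w) / 2) +
        (0.75 - 0.005625 * 1.7320509) * ((1.000025 * w - 0.632 * (c * w)) * (40 / 31))) +
        0.351 * w -
      0.468 * r * w * (3 * 1.7320509 / 4 + 0.03375) - 0.1566 * w := by ring
    rw [e4, hc, hw]
    exact poly_one hr1 hr2
  have e5 := nonneg_of_mul_nonneg_right e3 (by linarith)
  have e6 : 3 * (r * w * s) + 3 * (r ^ 2 * (t / 2 * c - s / 2)) -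
      1.404 * r * ((t / 2 - 0.01125) * (c / 2) + (0.75 - 0.005625 * t) * s) + 0.351 -
      0.468 * r * (3 * t / 4 + 0.03375) - 0.1566 =
      (3 * (r * w * ((1.000025 - 0.632 * c) * (40 / 31))) +
      3 * (r ^ 2 * (1.7320509 / 2 * c - ((1.000025 - 0.632 * c) * (40 / 31)) / 2)) -
      1.404 * r * ((1.7320509 / 2 - 0.01125) * (c / 2) +
        (0.75 - 0.005625 * 1.7320509) * ((1.000025 - 0.632 * c) * (40 / 31))) + 0.351 -
      0.468 * r * (3 * 1.7320509 / 4 + 0.03375) - 0.1566) +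
      ((1.000025 - 0.632 * c) * (40 / 31) - s) *
      (r * (1.053 - 3 * w + 1.5 * r - 0.0078975 * 1.7320509)) +
      (1.7320509 - t) * (r * (0.351 * c + 0.351 - 1.5 * (r * c) - 0.0078975 * s)) := by
    ring
  linarith [e1, e2, e5, e6]

/-- the contribution of one free half angle -/
lemma eta_part {r q e : ℝ} (hr : 0 ≤ r) (h1 : 1 - cos e ≤ 0.18) :
    0.468 * r * phi e ≤ 0.468 * r * (√3 / 4 + 0.01125 + (√3 / 2 - 0.01125) * cos e) ∨ q < q := by
  left
  have h2 : 0 ≤ 1 - cos e := by linarith [Real.cos_le_one e]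
  have h3 : (1 - cos e) ^ 2 ≤ 0.18 * (1 - cos e) := by nlinarith
  refine mul_le_mul_of_nonneg_left ?_ (by positivity)
  unfold phi
  nlinarith

lemma slope_aux {r k S C : ℝ} (hr1 : 1 / 6 ≤ r) (hr2 : r ≤ 0.1936) (hk1 : 0.399 * r ≤ k)
    (hk2 : k ≤ 0.401 * r) (hS0 : 0 ≤ S) (hS1 : S ≤ 0.165) (hC0 : 0.9 ≤ C) (hC1 : C ≤ 1) :
    0 ≤ r ^ 2 * C + k * S ∧ r ^ 2 * C + k * S ≤ k * C - r ^ 2 * S ∧
      r ^ 2 * C + k * S ≤ (1 / 2 - r) ^ 2 := by
  have hr0 : 0 < r := by linarith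
  have h1 : 0 ≤ r ^ 2 * C := by positivity
  have hk0 : 0 ≤ k := by linarith
  have h2 : 0 ≤ k * S := by positivity
  have h3 : k * S ≤ k * 0.165 := mul_le_mul_of_nonneg_left hS1 hk0
  have h4 : r ^ 2 * S ≤ r ^ 2 * 0.165 := mul_le_mul_of_nonneg_left hS1 (by positivity)
  have h5 : k * 0.9 ≤ k * C := mul_le_mul_of_nonneg_left hC0 hk0
  have h6 : r ^ 2 * C ≤ r ^ 2 * 1 := mul_le_mul_of_nonneg_left hC1 (by positivity)
  have h7 : r ^ 2 ≤ 0.1936 * r := by nlinarith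
  refine ⟨by linarith, by linarith, ?_⟩
  have h8 : 0.3064 ^ 2 ≤ (1 / 2 - r) ^ 2 := pow_le_pow_left₀ (by norm_num) (by linarith) 2
  norm_num at h8 ⊢
  linarith

lemma s_bounds {c s : ℝ} (hc1 : 1 / 2 ≤ c) (hc2 : c ≤ 0.632) (hs0 : 0 ≤ s)
    (hcs : c ^ 2 + s ^ 2 = 1) : 0.774 ≤ s ∧ 0.632 * c + 0.775 * s ≤ 1.000025 := by
  constructor
  · by_contra h
    push Not at h
    nlinarith
  · have h1 : (0.632 * c + 0.775 * s) ^ 2 ≤ 1.000025 ^ 2 := by
      nlinarith [sq_nonneg (0.775 * c - 0.632 * s)]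
    exact (abs_le_of_sq_le_sq' h1 (by norm_num)).2

lemma t_bounds {t : ℝ} (ht0 : 0 ≤ t) (ht3 : t ^ 2 = 3) : 1.73205 ≤ t ∧ t ≤ 1.7320509 := by
  constructor
  · by_contra h
    push Not at h
    nlinarith
  · by_contra h
    push Not at h
    nlinarith

lemma cos_bound {S C : ℝ} (h1 : S ^ 2 + C ^ 2 = 1) (hS0 : 0 ≤ S) (hS1 : S ≤ 0.165)
    (hC : 0 ≤ C) : 0.9 ≤ C := by
  by_contra h
  push Not at h
  nlinarith

lemma one_sub_cos_bound {x : ℝ} (h0 : 0 ≤ x) (h1 : x ≤ 0.6) : 1 - cos x ≤ 0.18 := by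
  have := Real.one_sub_sq_div_two_le_cos (x := x)
  nlinarith

theorem t_NL : S_NL := by
  intro r γ₁ γ₂ γ₃ η₁ η₂ η₃ hr1 hr2 hA
  obtain ⟨a1, b1, a2, b2, a3, b3, e1, e2, e3, hsum, c1, c2, c3⟩ := hA
  have hr0 : 0 < r := by linarith
  obtain ⟨w, hw⟩ : ∃ w, w = 1 / 2 - r := ⟨_, rfl⟩
  have hw0 : 0.3064 ≤ w := by linarith
  have hw1 : w ≤ 1 / 3 := by linarith
  have hwp : 0 < w := by linarith
  obtain ⟨c, hc⟩ : ∃ c, c = r / w := ⟨_, rfl⟩
  have hcw : c * w = r := by rw [hc]; field_simp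
  have hc1 : 1 / 2 ≤ c := by
    rw [hc, le_div_iff₀ hwp]; linarith
  have hc2 : c ≤ 0.632 := by
    rw [hc, div_le_iff₀ hwp]; linarith
  have hc0 : 0 < c := by linarith
  obtain ⟨θ, hθ⟩ : ∃ θ, θ = arccos c := ⟨_, rfl⟩
  have hcθ : cos θ = c := by rw [hθ]; exact Real.cos_arccos (by linarith) (by linarith)
  have hθ0 : 0 ≤ θ := by rw [hθ]; exact Real.arccos_nonneg c
  have hπ := Real.pi_pos
  have hθπ : θ ≤ π := by rw [hθ]; exact Real.arccos_le_pi c
  have hθ1 : θ ≤ π / 3 := by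
    by_contra h
    push Not at h
    have := Real.cos_lt_cos_of_nonneg_of_le_pi (by positivity) hθπ h
    rw [Real.cos_pi_div_three, hcθ] at this
    linarith
  obtain ⟨s, hs⟩ : ∃ s, s = sin θ := ⟨_, rfl⟩
  have hs0 : 0 ≤ s := by rw [hs]; exact sin_nonneg_of_nonneg_of_le_pi hθ0 hθπ
  have hcs : c ^ 2 + s ^ 2 = 1 := by
    rw [hs, ← hcθ]
    exact Real.cos_sq_add_sin_sq θ
  obtain ⟨hsl, hsu⟩ := s_bounds hc1 hc2 hs0 hcs
  obtain ⟨t, ht⟩ : ∃ t, t = √3 := ⟨_, rfl⟩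
  have ht3 : t ^ 2 = 3 := by rw [ht]; exact Real.sq_sqrt (by norm_num)
  have ht0 : 0 ≤ t := by rw [ht]; positivity
  obtain ⟨ht1, ht2⟩ := t_bounds ht0 ht3
  -- the angle `e = π / 3 - θ`
  obtain ⟨e, he⟩ : ∃ e, e = π / 3 - θ := ⟨_, rfl⟩
  have he0 : 0 ≤ e := by linarith
  have hse : sin e = t / 2 * c - s / 2 := by
    rw [he, Real.sin_sub, Real.sin_pi_div_three, Real.cos_pi_div_three, hcθ, ← hs, ht]
    ring
  have hce : cos e = c / 2 + t / 2 * s := by
    rw [he, Real.cos_sub, Real.sin_pi_div_three, Real.cos_pi_div_three, hcθ, ← hs, ht]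
    ring
  have hse1 : sin e ≤ 0.165 := by
    have h1 : t / 2 * c ≤ 1.7320509 / 2 * 0.632 :=
      mul_le_mul (by linarith) hc2 hc0.le (by norm_num)
    rw [hse]
    norm_num at h1 ⊢
    linarith
  have hse0 : 0 ≤ sin e := sin_nonneg_of_nonneg_of_le_pi he0 (by linarith)
  have hce0 : 0.9 ≤ cos e := by
    have h1 := Real.sin_sq_add_cos_sq e
    have h2 : 0 ≤ cos e := cos_nonneg_of_mem_Icc ⟨by linarith, by linarith⟩
    exact cos_bound h1 hse0 hse1 h2
  have he1 : e ≤ 0.2 := by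
    by_contra h
    push Not at h
    have h1 : sin 0.2 ≤ sin e := Real.sin_le_sin_of_le_of_le_pi_div_two
      (by linarith) (by linarith) h.le
    have h2 := Real.sin_gt_sub_cube (x := 0.2) (by norm_num)
    norm_num at h1 h2 hse1
    linarith
  -- the angles `γ`
  have hγ : ∀ γ : ℝ, 0 < γ → (1 / 2 - r) * cos γ ≤ r → θ ≤ γ := by
    intro γ h1 h2
    by_contra h
    push Not at h
    have h3 := Real.cos_lt_cos_of_nonneg_of_le_pi h1.le hθπ h
    rw [hcθ] at h3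
    rw [← hw] at h2
    have h4 := mul_lt_mul_of_pos_left h3 hwp
    linarith
  have hcos2 : r ^ 2 * (tan θ) = r * w * s := by
    rw [Real.tan_eq_sin_div_cos, hcθ, ← hs, ← hcw]
    field_simp
  have htan : ∀ γ : ℝ, 0 < γ → γ < π / 2 → (1 / 2 - r) * cos γ ≤ r →
      r * w * s + w ^ 2 * (γ - θ) ≤ r ^ 2 * tan γ := by
    intro γ h1 h2 h3
    have h4 := tan_ge hθ0 (hγ γ h1 h3) h2
    have h5 := mul_le_mul_of_nonneg_left h4 (sq_nonneg r)
    rw [mul_add, hcos2, hcθ] at h5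
    have h6 : r ^ 2 * ((γ - θ) / c ^ 2) = w ^ 2 * (γ - θ) := by
      rw [← hcw]
      field_simp
    rw [h6] at h5
    exact h5
  have g1 := htan γ₁ a1 b1 c1
  have g2 := htan γ₂ a2 b2 c2
  have g3 := htan γ₃ a3 b3 c3
  have t1 := hγ γ₁ a1 c1
  have t2 := hγ γ₂ a2 c2
  have t3 := hγ γ₃ a3 c3
  -- the angles `η`
  obtain ⟨k, hk⟩ : ∃ k, k = 0.468 * r * (t / 2 - 0.01125) := ⟨_, rfl⟩
  have hrt1 := mul_nonneg hr0.le (sub_nonneg.2 ht1)
  have hrt2 := mul_nonneg hr0.le (sub_nonneg.2 ht2)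
  have hk1 : 0.399 * r ≤ k := by rw [hk]; linarith
  have hk2 : k ≤ 0.401 * r := by rw [hk]; linarith
  obtain ⟨hsl1, hsl2, hsl3⟩ := slope_aux hr1 hr2 hk1 hk2 hse0 hse1 hce0 (Real.cos_le_one e)
  rw [← hw] at hsl3
  have hη : ∀ x : ℝ, 0 ≤ x → x ≤ 3 * e →
      r ^ 2 * sin e - k * cos e + (r ^ 2 * cos e + k * sin e) * (x - e) - 
        0.468 * r * (t / 4 + 0.01125) ≤ r ^ 2 * sin x - 0.468 * r * phi x := by
    intro x h1 h2
    have h3 := conv_ge (A := r ^ 2) (B := k) (e := e) (x := x)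
      hsl1 hsl2 (by linarith) (by linarith)
    have h4 : 1 - cos x ≤ 0.18 := one_sub_cos_bound h1 (by linarith)
    have h5 := (eta_part (r := r) (q := 0) hr0.le h4).resolve_right (lt_irrefl _)
    rw [← ht] at h5
    have h6 : 0.468 * r * (t / 4 + 0.01125 + (t / 2 - 0.01125) * cos x) =
        0.468 * r * (t / 4 + 0.01125) + k * cos x := by rw [hk]; ring
    rw [h6] at h5
    linarith
  have k1 := hη η₁ e1 (by linarith)
  have k2 := hη η₂ e2 (by linarith)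
  have k3 := hη η₃ e3 (by linarith)
  have hfin := final_poly hr1 hr2 hw hcw ht1 ht2 hc1 hc2 hs0 hsu
  have hσ : 0 ≤ (w ^ 2 - (r ^ 2 * cos e + k * sin e)) * (γ₁ + γ₂ + γ₃ - 3 * θ) := by
    exact mul_nonneg (by linarith) (by linarith)
  have hη3 : (r ^ 2 * cos e + k * sin e) * (η₁ - e) + (r ^ 2 * cos e + k * sin e) * (η₂ - e) +
      (r ^ 2 * cos e + k * sin e) * (η₃ - e) =
      - ((r ^ 2 * cos e + k * sin e) * (γ₁ + γ₂ + γ₃ - 3 * θ)) := by
    have h1 : η₁ + η₂ + η₃ - 3 * e = - (γ₁ + γ₂ + γ₃ - 3 * θ) := by linarith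
    have h2 : (r ^ 2 * cos e + k * sin e) * (η₁ - e) + (r ^ 2 * cos e + k * sin e) * (η₂ - e) +
      (r ^ 2 * cos e + k * sin e) * (η₃ - e) =
      (r ^ 2 * cos e + k * sin e) * (η₁ + η₂ + η₃ - 3 * e) := by ring
    rw [h2, h1]
    ring
  -- the value at `γ = θ`, `η = e`
  have hG : 3 * (r * w * s) + 3 * (r ^ 2 * (t / 2 * c - s / 2)) -
      1.404 * r * ((t / 2 - 0.01125) * (c / 2) + (0.75 - 0.005625 * t) * s) + 0.351 -
      0.468 * r * (3 * t / 4 + 0.03375) =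
      3 * (r * w * s) + 3 * (r ^ 2 * sin e - k * cos e) + 0.351 -
      3 * (0.468 * r * (t / 4 + 0.01125)) := by
    have h1 : (t / 2 - 0.01125) * (c / 2) + (0.75 - 0.005625 * t) * s =
        (t / 2 - 0.01125) * (c / 2 + t / 2 * s) := by
      have h2 : (t / 2 - 0.01125) * (t / 2 * s) = (t ^ 2 / 4 - 0.005625 * t) * s := by ring
      rw [mul_add, h2, ht3]
      norm_num
    rw [h1, hse, hce, hk]
    ring
  have hL : r ^ 2 * (tan γ₁ + tan γ₂ + tan γ₃ + sin η₁ + sin η₂ + sin η₃) +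
      0.117 * (3 - 4 * r * (phi η₁ + phi η₂ + phi η₃)) =
      r ^ 2 * tan γ₁ + r ^ 2 * tan γ₂ + r ^ 2 * tan γ₃ + (r ^ 2 * sin η₁ - 0.468 * r * phi η₁) +
      (r ^ 2 * sin η₂ - 0.468 * r * phi η₂) + (r ^ 2 * sin η₃ - 0.468 * r * phi η₃) + 0.351 := by
    ring
  have hγs : w ^ 2 * (γ₁ - θ) + w ^ 2 * (γ₂ - θ) + w ^ 2 * (γ₃ - θ) =
      w ^ 2 * (γ₁ + γ₂ + γ₃ - 3 * θ) := by ring
  rw [hL]
  rw [sub_mul] at hσ
  rw [hG] at hfin
  linarith

end Pool.Agent.V7H19.LB
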